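import Mathlib

/-!
# The Parrondo spin system on the integers: definitions
-/

open Filter Topology MeasureTheory

namespace Pool.Agent.PSD

/-- Configurations: `{0,1}^ℤ`, with `true` standing for `1`. -/
abbrev Config : Type := ℤ → Bool

/-- The index `m_i(x) = 2 x_{i-1} + x_{i+1}`. -/
def nbr (x : Config) (i : ℤ) : Fin 4 :=
  if x (i - 1) then (if x (i + 1) then 3 else 2) else (if x (i + 1) then 1 else 0)

/-- The configuration `x` with coordinate `i` flipped. -/
def flipAt (x : Config) (i : ℤ) : Config := Function.update x i (!(x i))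

/-- The flip rate `c_i(x)`: it is `p_{m_i(x)}` if `x_i = 0` and `1 - p_{m_i(x)}` if `x_i = 1`. -/
noncomputable def flipRate (p : Fin 4 → ℝ) (x : Config) (i : ℤ) : ℝ :=
  if x i then 1 - p (nbr x i) else p (nbr x i)

/-- The function `f` depends only on the coordinates in the finite set `Λ`. -/
def DependsOnlyOn (f : C(Config, ℝ)) (Λ : Finset ℤ) : Prop :=
  ∀ x y : Config, (∀ i ∈ Λ, x i = y i) → f x = f y

/-- `S` is a Feller (strongly continuous Markov) semigroup on `C({0,1}^ℤ)` whose generator acts on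
a function `f` of finitely many coordinates as
`x ↦ ∑_i c_i(x) (f(x^i) - f(x))` (the sites outside a finite set on which `f` depends contribute
nothing to the sum). -/
structure IsParrondoSemigroup (p : Fin 4 → ℝ) (S : ℝ → C(Config, ℝ) → C(Config, ℝ)) : Prop where
  zero : ∀ f, S 0 f = f
  add : ∀ s t : ℝ, 0 ≤ s → 0 ≤ t → ∀ f, S (s + t) f = S s (S t f)
  lin : ∀ t : ℝ, 0 ≤ t → ∀ (a b : ℝ) (f g : C(Config, ℝ)), S t (a • f + b • g) = a • S t f + b • S t g
  one : ∀ t : ℝ, 0 ≤ t → S t 1 = 1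
  nonneg : ∀ t : ℝ, 0 ≤ t → ∀ f : C(Config, ℝ), (∀ x, 0 ≤ f x) → ∀ x, 0 ≤ S t f x
  cont : ∀ f, Tendsto (fun t : ℝ => S t f) (𝓝[>] 0) (𝓝 f)
  gen : ∀ (Λ : Finset ℤ) (f g : C(Config, ℝ)), DependsOnlyOn f Λ →
    (∀ x, g x = ∑ i ∈ Λ, flipRate p x i * (f (flipAt x i) - f x)) →
    Tendsto (fun t : ℝ => t⁻¹ • (S t f - f)) (𝓝[>] 0) (𝓝 g)

/-- The probability measure `ν` is invariant for `S`. -/
def IsInvariant (S : ℝ → C(Config, ℝ) → C(Config, ℝ)) (ν : ProbabilityMeasure Config) : Prop :=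
  ∀ t : ℝ, 0 ≤ t → ∀ f : C(Config, ℝ), ∫ x, S t f x ∂(ν : Measure Config) = ∫ x, f x ∂(ν : Measure Config)

/-- `S` is ergodic: it has a unique invariant probability measure `ν`, and for every initial
probability measure `μ` the laws `μ S(t)` converge weakly to `ν` as `t → ∞`. -/
def IsErgodic (S : ℝ → C(Config, ℝ) → C(Config, ℝ)) : Prop :=
  ∃ ν : ProbabilityMeasure Config, IsInvariant S ν ∧
    (∀ ν' : ProbabilityMeasure Config, IsInvariant S ν' → ν' = ν) ∧
    ∀ (μ : ProbabilityMeasure Config) (f : C(Config, ℝ)),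
      Tendsto (fun t : ℝ => ∫ x, S t f x ∂(μ : Measure Config)) atTop
        (𝓝 (∫ x, f x ∂(ν : Measure Config)))

end Pool.Agent.PSD
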