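import Pool.Agent.PSD.Defs

/-!
# Product functions, the action of the generator, and the exponential bound
-/

open Filter Topology MeasureTheory

namespace Pool.Agent.PSD

/-! ### Basic facts on the semigroup -/

section Semigroup

variable {p : Fin 4 → ℝ} {S : ℝ → C(Config, ℝ) → C(Config, ℝ)}

theorem S_add (hS : IsParrondoSemigroup p S) {t : ℝ} (ht : 0 ≤ t) (f g : C(Config, ℝ)) :
    S t (f + g) = S t f + S t g := by
  have := hS.lin t ht 1 1 f g
  simpa using this

theorem S_smul (hS : IsParrondoSemigroup p S) {t : ℝ} (ht : 0 ≤ t) (a : ℝ) (f : C(Config, ℝ)) :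
    S t (a • f) = a • S t f := by
  have := hS.lin t ht a 0 f 0
  simpa using this

theorem S_sub (hS : IsParrondoSemigroup p S) {t : ℝ} (ht : 0 ≤ t) (f g : C(Config, ℝ)) :
    S t (f - g) = S t f - S t g := by
  have := hS.lin t ht 1 (-1) f g
  simpa [sub_eq_add_neg] using this

theorem S_zero (hS : IsParrondoSemigroup p S) {t : ℝ} (ht : 0 ≤ t) :
    S t 0 = 0 := by
  have := S_smul hS ht 0 0
  simpa using this

theorem S_sum (hS : IsParrondoSemigroup p S) {t : ℝ} (ht : 0 ≤ t) {ι : Type*} (s : Finset ι)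
    (f : ι → C(Config, ℝ)) : S t (∑ i ∈ s, f i) = ∑ i ∈ s, S t (f i) := by
  classical
  induction s using Finset.induction_on with
  | empty => simpa using S_zero hS ht
  | insert a s ha ih => rw [Finset.sum_insert ha, Finset.sum_insert ha, S_add hS ht, ih]

theorem S_mono (hS : IsParrondoSemigroup p S) {t : ℝ} (ht : 0 ≤ t) {f g : C(Config, ℝ)}
    (h : ∀ x, f x ≤ g x) (x : Config) : S t f x ≤ S t g x := by
  have := hS.nonneg t ht (g - f) (fun x => by simpa using h x) x
  rw [S_sub hS ht] at this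
  simpa using this

theorem S_const (hS : IsParrondoSemigroup p S) {t : ℝ} (ht : 0 ≤ t) (a : ℝ) (x : Config) :
    S t (a • (1 : C(Config, ℝ))) x = a := by
  rw [S_smul hS ht, hS.one t ht]; simp

theorem S_abs_le (hS : IsParrondoSemigroup p S) {t : ℝ} (ht : 0 ≤ t) {f : C(Config, ℝ)} {b : ℝ}
    (h : ∀ x, |f x| ≤ b) (x : Config) : |S t f x| ≤ b := by
  rw [abs_le]
  constructor
  · have := S_mono hS ht (f := (-b) • (1 : C(Config, ℝ))) (g := f)
      (fun x => by simpa using (abs_le.1 (h x)).1) x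
    rwa [S_const hS ht] at this
  · have := S_mono hS ht (f := f) (g := b • (1 : C(Config, ℝ)))
      (fun x => by simpa using (abs_le.1 (h x)).2) x
    rwa [S_const hS ht] at this

theorem S_norm_le (hS : IsParrondoSemigroup p S) {t : ℝ} (ht : 0 ≤ t) (f : C(Config, ℝ)) :
    ‖S t f‖ ≤ ‖f‖ := by
  rw [ContinuousMap.norm_le _ (norm_nonneg f)]
  intro x
  rw [Real.norm_eq_abs]
  exact S_abs_le hS ht (fun y => by simpa [Real.norm_eq_abs] using ContinuousMap.norm_coe_le_norm f y) x

theorem S_diff_le (hS : IsParrondoSemigroup p S) {s t : ℝ} (hs : 0 ≤ s) (hst : s ≤ t)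
    (f : C(Config, ℝ)) : ‖S t f - S s f‖ ≤ ‖S (t - s) f - f‖ := by
  have h1 : S t f = S s (S (t - s) f) := by
    rw [← hS.add s (t - s) hs (by linarith)]; congr 1; ring
  rw [h1, ← S_sub hS hs]
  exact S_norm_le hS hs _

/-- Continuity in time, uniformly in space. -/
theorem S_continuousOn (hS : IsParrondoSemigroup p S) (f : C(Config, ℝ)) :
    ContinuousOn (fun t : ℝ => S t f) (Set.Ici 0) := by
  have hc : ∀ ε > 0, ∃ δ > 0, ∀ h : ℝ, 0 ≤ h → h < δ → ‖S h f - f‖ < ε := by
    intro ε hε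
    have h1 := hS.cont f
    rw [Metric.tendsto_nhdsWithin_nhds] at h1
    obtain ⟨δ, hδ, h2⟩ := h1 ε hε
    refine ⟨δ, hδ, fun h h0 hlt => ?_⟩
    rcases h0.eq_or_lt with h0 | h0
    · rw [← h0, hS.zero]; simpa using hε
    · have := h2 (x := h) h0 (by simpa [Real.dist_eq, abs_of_pos h0] using hlt)
      simpa [dist_eq_norm] using this
  rw [Metric.continuousOn_iff]
  intro t ht ε hε
  obtain ⟨δ, hδ, h⟩ := hc ε hε
  refine ⟨δ, hδ, fun s hs hd => ?_⟩
  rw [Set.mem_Ici] at ht hs
  rw [dist_eq_norm]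
  rw [Real.dist_eq] at hd
  rcases le_total s t with hst | hst
  · have h1 := S_diff_le hS hs hst f
    rw [norm_sub_rev]
    refine lt_of_le_of_lt h1 (h _ (by linarith) ?_)
    rw [abs_sub_comm, abs_of_nonneg (by linarith)] at hd
    exact hd
  · have h1 := S_diff_le hS ht hst f
    refine lt_of_le_of_lt h1 (h _ (by linarith) ?_)
    rw [abs_of_nonneg (by linarith)] at hd
    exact hd

/-- Right derivative in time. -/
theorem S_hasDeriv (hS : IsParrondoSemigroup p S) {Λ : Finset ℤ} {f g : C(Config, ℝ)}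
    (hf : DependsOnlyOn f Λ)
    (hg : ∀ x, g x = ∑ i ∈ Λ, flipRate p x i * (f (flipAt x i) - f x)) {t : ℝ} (ht : 0 ≤ t)
    (x : Config) : HasDerivWithinAt (fun s : ℝ => S s f x) (S t g x) (Set.Ici t) t := by
  have h1 := hS.gen Λ f g hf hg
  rw [hasDerivWithinAt_iff_tendsto_slope]
  have e1 : Set.Ici t \ {t} = Set.Ioi t := by
    ext s; simp only [Set.mem_sdiff, Set.mem_Ici, Set.mem_singleton_iff, Set.mem_Ioi]
    constructor
    · rintro ⟨h, h'⟩; exact lt_of_le_of_ne h (Ne.symm h')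
    · intro h; exact ⟨h.le, h.ne'⟩
  rw [e1, Metric.tendsto_nhdsWithin_nhds]
  intro ε hε
  rw [Metric.tendsto_nhdsWithin_nhds] at h1
  obtain ⟨δ, hδ, h2⟩ := h1 ε hε
  refine ⟨δ, hδ, fun {s} hs hd => ?_⟩
  have hs' : 0 < s - t := sub_pos.2 hs
  have h3 := h2 (x := s - t) hs' (by
    rw [Real.dist_eq] at hd ⊢; simpa using hd)
  have h4 : slope (fun s : ℝ => S s f x) t s - S t g x
      = S t ((s - t)⁻¹ • (S (s - t) f - f) - g) x := by
    rw [S_sub hS ht, S_smul hS ht, S_sub hS ht, ← hS.add t (s - t) ht hs'.le, slope_def_field]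
    simp only [ContinuousMap.sub_apply, ContinuousMap.smul_apply, smul_eq_mul]
    rw [show t + (s - t) = s by ring]
    ring
  rw [Real.dist_eq, h4]
  calc |S t ((s - t)⁻¹ • (S (s - t) f - f) - g) x|
      ≤ ‖S t ((s - t)⁻¹ • (S (s - t) f - f) - g)‖ := by
        simpa [Real.norm_eq_abs] using ContinuousMap.norm_coe_le_norm
          (S t ((s - t)⁻¹ • (S (s - t) f - f) - g)) x
    _ ≤ ‖(s - t)⁻¹ • (S (s - t) f - f) - g‖ := S_norm_le hS ht _
    _ < ε := by simpa [dist_eq_norm] using h3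

end Semigroup

/-! ### Product functions -/

/-- The function of one spin with value `b` at `1` and `a` at `0`. -/
def uv (a b : ℝ) (s : Bool) : ℝ := if s then b else a

/-- The one-site function `x ↦ uv a b (x i)`. -/
noncomputable def uc (a b : ℝ) (i : ℤ) : C(Config, ℝ) :=
  ⟨fun x => uv a b (x i), (continuous_of_discreteTopology (f := uv a b)).comp (continuous_apply i)⟩

@[simp] theorem uc_apply (a b : ℝ) (i : ℤ) (x : Config) : uc a b i x = uv a b (x i) := rfl

/-- The product function over a finite set of sites. -/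
noncomputable def U (a b : ℝ) (A : Finset ℤ) : C(Config, ℝ) := ∏ i ∈ A, uc a b i

theorem U_apply (a b : ℝ) (A : Finset ℤ) (x : Config) : U a b A x = ∏ i ∈ A, uv a b (x i) := by
  simp [U, ContinuousMap.coe_prod]

theorem U_empty (a b : ℝ) : U a b ∅ = 1 := by simp [U]

theorem U_insert (a b : ℝ) {A : Finset ℤ} {j : ℤ} (h : j ∉ A) :
    U a b (insert j A) = uc a b j * U a b A := by simp [U, Finset.prod_insert h]

theorem U_erase (a b : ℝ) {A : Finset ℤ} {j : ℤ} (h : j ∈ A) :
    uc a b j * U a b (A.erase j) = U a b A := by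
  simp [U, Finset.mul_prod_erase A _ h]

theorem uc_sq (a b : ℝ) (j : ℤ) :
    uc a b j * uc a b j = (-(a * b)) • (1 : C(Config, ℝ)) + (a + b) • uc a b j := by
  ext x
  simp only [ContinuousMap.mul_apply, uc_apply, ContinuousMap.add_apply, ContinuousMap.smul_apply,
    ContinuousMap.one_apply, smul_eq_mul]
  unfold uv
  split_ifs <;> ring

theorem uc_mul_U (a b : ℝ) {A : Finset ℤ} {j : ℤ} (h : j ∈ A) :
    uc a b j * U a b A = (-(a * b)) • U a b (A.erase j) + (a + b) • U a b A := by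
  rw [← U_erase a b h, ← mul_assoc, uc_sq, add_mul]
  simp

theorem U_dependsOnlyOn (a b : ℝ) (A : Finset ℤ) : DependsOnlyOn (U a b A) A := by
  intro x y h
  rw [U_apply, U_apply]
  exact Finset.prod_congr rfl fun i hi => by rw [h i hi]

theorem abs_uv_le {a b : ℝ} (ha : |a| ≤ 1) (hb : |b| ≤ 1) (s : Bool) : |uv a b s| ≤ 1 := by
  unfold uv; split_ifs <;> assumption

theorem abs_U_le {a b : ℝ} (ha : |a| ≤ 1) (hb : |b| ≤ 1) (A : Finset ℤ) (x : Config) :
    |U a b A x| ≤ 1 := by
  rw [U_apply, Finset.abs_prod]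
  exact Finset.prod_le_one (fun i _ => abs_nonneg _) fun i _ => abs_uv_le ha hb _

/-! ### The action of the generator -/

/-- The value `2 l + r` as an index. -/
def idx (l r : Bool) : Fin 4 := if l then (if r then 3 else 2) else (if r then 1 else 0)

theorem nbr_eq (x : Config) (i : ℤ) : nbr x i = idx (x (i - 1)) (x (i + 1)) := rfl

/-- The function which replaces the product function over `A` when site `i ∈ A` is updated. -/
noncomputable def V (a b d0 d1 d2 d3 : ℝ) (A : Finset ℤ) (i : ℤ) : C(Config, ℝ) :=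
  d0 • U a b (A.erase i) + d1 • (uc a b (i - 1) * U a b (A.erase i))
    + d2 • (uc a b (i + 1) * U a b (A.erase i))
    + d3 • (uc a b (i - 1) * (uc a b (i + 1) * U a b (A.erase i)))

theorem gen_U {p : Fin 4 → ℝ} {a b d0 d1 d2 d3 : ℝ}
    (hd : ∀ l r : Bool, (1 - p (idx l r)) * a + p (idx l r) * b
      = d0 + d1 * uv a b l + d2 * uv a b r + d3 * (uv a b l * uv a b r)) (A : Finset ℤ)
    (x : Config) :
    (∑ i ∈ A, (V a b d0 d1 d2 d3 A i - U a b A)) x
      = ∑ i ∈ A, flipRate p x i * (U a b A (flipAt x i) - U a b A x) := by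
  rw [ContinuousMap.sum_apply]
  refine Finset.sum_congr rfl fun i hi => ?_
  have h1 : U a b A x = uv a b (x i) * U a b (A.erase i) x := by
    rw [← U_erase a b hi]; rfl
  have h2 : U a b A (flipAt x i) = uv a b (!(x i)) * U a b (A.erase i) x := by
    rw [← U_erase a b hi, ContinuousMap.mul_apply, uc_apply]
    congr 1
    · simp [flipAt]
    · refine U_dependsOnlyOn a b _ _ _ fun j hj => ?_
      have : j ≠ i := (Finset.mem_erase.1 hj).1
      simp [flipAt, this]
  rw [ContinuousMap.sub_apply, h2, h1]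
  have h3 : V a b d0 d1 d2 d3 A i x
      = (d0 + d1 * uv a b (x (i - 1)) + d2 * uv a b (x (i + 1))
        + d3 * (uv a b (x (i - 1)) * uv a b (x (i + 1)))) * U a b (A.erase i) x := by
    simp only [V, ContinuousMap.add_apply, ContinuousMap.smul_apply, ContinuousMap.mul_apply,
      uc_apply, smul_eq_mul]
    ring
  rw [h3, ← hd, ← nbr_eq]
  unfold flipRate
  cases hx : x i
  · simp only [uv, Bool.not_false, if_true, Bool.false_eq_true, if_false]
    ring
  · simp only [uv, Bool.not_true, if_true, Bool.false_eq_true, if_false]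
    ring

/-! ### The exponential bound -/

section Bound

variable {p : Fin 4 → ℝ} {S : ℝ → C(Config, ℝ) → C(Config, ℝ)}

/-- The oscillation of `S t f` between `x` and `y` is at most `B`, for all `x`, `y`. -/
def Osc (S : ℝ → C(Config, ℝ) → C(Config, ℝ)) (t : ℝ) (f : C(Config, ℝ)) (B : ℝ) : Prop :=
  ∀ x y : Config, |S t f x - S t f y| ≤ B

theorem Osc.comb (hS : IsParrondoSemigroup p S) {t : ℝ} (ht : 0 ≤ t) {f g : C(Config, ℝ)}
    {B C : ℝ} (hf : Osc S t f B) (hg : Osc S t g C) (a b : ℝ) :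
    Osc S t (a • f + b • g) (|a| * B + |b| * C) := by
  intro x y
  rw [hS.lin t ht]
  simp only [ContinuousMap.add_apply, ContinuousMap.smul_apply, smul_eq_mul]
  have h1 : a * S t f x + b * S t g x - (a * S t f y + b * S t g y)
      = a * (S t f x - S t f y) + b * (S t g x - S t g y) := by ring
  rw [h1]
  refine (abs_add_le _ _).trans ?_
  rw [abs_mul, abs_mul]
  gcongr
  · exact hf x y
  · exact hg x y

theorem Osc.mono {t : ℝ} {f : C(Config, ℝ)} {B C : ℝ} (hf : Osc S t f B) (h : B ≤ C) :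
    Osc S t f C := fun x y => (hf x y).trans h

theorem Osc.conv (hS : IsParrondoSemigroup p S) {t : ℝ} (ht : 0 ≤ t) {f g : C(Config, ℝ)}
    {B : ℝ} (hB : 0 ≤ B) (hf : Osc S t f B) (hg : Osc S t g B) {a b : ℝ} (hab : |a| + |b| ≤ 1) :
    Osc S t (a • f + b • g) B := by
  refine (hf.comb hS ht hg a b).mono ?_
  rw [← add_mul]
  exact mul_le_of_le_one_left hB hab

theorem osc_mul (hS : IsParrondoSemigroup p S) {t : ℝ} (ht : 0 ≤ t) {a b : ℝ}
    (hab : |-(a * b)| + |a + b| ≤ 1) {B : ℝ} (hB : 0 ≤ B) (h : ∀ A, Osc S t (U a b A) B)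
    (j : ℤ) (A : Finset ℤ) : Osc S t (uc a b j * U a b A) B := by
  by_cases hj : j ∈ A
  · rw [uc_mul_U a b hj]
    exact Osc.conv hS ht hB (h _) (h _) hab
  · rw [← U_insert a b hj]
    exact h _

theorem osc_mul2 (hS : IsParrondoSemigroup p S) {t : ℝ} (ht : 0 ≤ t) {a b : ℝ}
    (hab : |-(a * b)| + |a + b| ≤ 1) {B : ℝ} (hB : 0 ≤ B) (h : ∀ A, Osc S t (U a b A) B)
    (j k : ℤ) (A : Finset ℤ) : Osc S t (uc a b j * (uc a b k * U a b A)) B := by
  by_cases hk : k ∈ A
  · rw [uc_mul_U a b hk, mul_add, mul_smul_comm, mul_smul_comm]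
    exact Osc.conv hS ht hB (osc_mul hS ht hab hB h _ _) (osc_mul hS ht hab hB h _ _) hab
  · rw [← U_insert a b hk]
    exact osc_mul hS ht hab hB h _ _

theorem osc_V (hS : IsParrondoSemigroup p S) {t : ℝ} (ht : 0 ≤ t) {a b d0 d1 d2 d3 : ℝ}
    (hab : |-(a * b)| + |a + b| ≤ 1) {B : ℝ} (hB : 0 ≤ B) (h : ∀ A, Osc S t (U a b A) B)
    (A : Finset ℤ) (i : ℤ) :
    Osc S t (V a b d0 d1 d2 d3 A i) ((|d0| + |d1| + |d2| + |d3|) * B) := by
  have h1 := (h (A.erase i)).comb hS ht (osc_mul hS ht hab hB h (i - 1) (A.erase i)) d0 d1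
  have h2 := h1.comb hS ht (osc_mul hS ht hab hB h (i + 1) (A.erase i)) 1 d2
  have h3 := h2.comb hS ht (osc_mul2 hS ht hab hB h (i - 1) (i + 1) (A.erase i)) 1 d3
  simp only [one_smul, abs_one, one_mul] at h3
  refine h3.mono ?_
  linarith

/-- One step of the iteration. -/
theorem osc_step (hS : IsParrondoSemigroup p S) {a b d0 d1 d2 d3 : ℝ}
    (ha : |a| ≤ 1) (hb : |b| ≤ 1)
    (hab : |-(a * b)| + |a + b| ≤ 1)
    (hd : ∀ l r : Bool, (1 - p (idx l r)) * a + p (idx l r) * b
      = d0 + d1 * uv a b l + d2 * uv a b r + d3 * (uv a b l * uv a b r))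
    {q : ℝ} (hq : |d0| + |d1| + |d2| + |d3| ≤ q) (hq0 : 0 ≤ q) (hq1 : q ≤ 1) {E : ℝ} (hE : 0 ≤ E)
    (h : ∀ t, 0 ≤ t → ∀ A, Osc S t (U a b A) (2 * Real.exp (-(1 - q) * t) + E)) :
    ∀ t, 0 ≤ t → ∀ A, Osc S t (U a b A) (2 * Real.exp (-(1 - q) * t) + q * E) := by
  intro t ht A x y
  rcases A.eq_empty_or_nonempty with hA | hA
  · rw [hA, U_empty, hS.one t ht]
    simp only [ContinuousMap.one_apply, sub_self, abs_zero]
    positivity
  have hn : (1 : ℝ) ≤ (A.card : ℝ) := by exact_mod_cast hA.card_pos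
  set n : ℝ := (A.card : ℝ) with hndef
  -- the function and its derivative
  set G : C(Config, ℝ) := ∑ i ∈ A, (V a b d0 d1 d2 d3 A i - U a b A) with hG
  have hder : ∀ s ∈ Set.Ico (0 : ℝ) t, HasDerivWithinAt
      (fun s : ℝ => Real.exp (n * s) * (S s (U a b A) x - S s (U a b A) y))
      (Real.exp (n * s) * ∑ i ∈ A, (S s (V a b d0 d1 d2 d3 A i) x - S s (V a b d0 d1 d2 d3 A i) y))
      (Set.Ici s) s := by
    intro s hs
    have e1 := S_hasDeriv hS (U_dependsOnlyOn a b A) (gen_U hd A) hs.1 x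
    have e2 := S_hasDeriv hS (U_dependsOnlyOn a b A) (gen_U hd A) hs.1 y
    have e3 : HasDerivWithinAt (fun s : ℝ => Real.exp (n * s)) (Real.exp (n * s) * n)
        (Set.Ici s) s := by
      have := ((hasDerivAt_id s).const_mul n).exp
      simpa using this.hasDerivWithinAt
    have e4 := e3.mul (e1.sub e2)
    refine e4.congr_deriv ?_
    have e5 : ∀ z, S s G z = ∑ i ∈ A, S s (V a b d0 d1 d2 d3 A i) z - n * S s (U a b A) z := by
      intro z
      rw [hG, S_sum hS hs.1, ContinuousMap.sum_apply]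
      rw [Finset.sum_congr rfl (fun i _ => by
        rw [S_sub hS hs.1, ContinuousMap.sub_apply] :
        ∀ i ∈ A, (S s (V a b d0 d1 d2 d3 A i - U a b A)) z
          = S s (V a b d0 d1 d2 d3 A i) z - S s (U a b A) z)]
      rw [Finset.sum_sub_distrib, Finset.sum_const, nsmul_eq_mul]
    rw [← hG, e5 x, e5 y, Finset.sum_sub_distrib, Pi.sub_apply]
    ring
  have hcont : ContinuousOn
      (fun s : ℝ => Real.exp (n * s) * (S s (U a b A) x - S s (U a b A) y)) (Set.Icc 0 t) := by
    have c1 : ContinuousOn (fun s : ℝ => S s (U a b A)) (Set.Icc 0 t) :=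
      (S_continuousOn hS _).mono Set.Icc_subset_Ici_self
    have c2 : ∀ z : Config, ContinuousOn (fun s : ℝ => S s (U a b A) z) (Set.Icc 0 t) :=
      fun z => (continuous_eval_const z).comp_continuousOn c1
    exact (by fun_prop : Continuous fun s : ℝ => Real.exp (n * s)).continuousOn.mul
      ((c2 x).sub (c2 y))
  have hB' : ∀ s : ℝ, HasDerivAt
      (fun s : ℝ => 2 * Real.exp ((n - (1 - q)) * s) + q * E * Real.exp (n * s))
      (2 * (Real.exp ((n - (1 - q)) * s) * (n - (1 - q))) + q * E * (Real.exp (n * s) * n)) s := by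
    intro s
    have f1 := (((hasDerivAt_id' s).const_mul (n - (1 - q))).exp).const_mul (2 : ℝ)
    have f2 := (((hasDerivAt_id' s).const_mul n).exp).const_mul (q * E)
    have f3 := f1.add f2
    simp only [mul_one] at f3
    exact f3
  have key := image_norm_le_of_norm_deriv_right_le_deriv_boundary hcont hder
    (B := fun s : ℝ => 2 * Real.exp ((n - (1 - q)) * s) + q * E * Real.exp (n * s))
    (B' := fun s : ℝ =>
      2 * (Real.exp ((n - (1 - q)) * s) * (n - (1 - q))) + q * E * (Real.exp (n * s) * n))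
    (by
      simp only [mul_zero, Real.exp_zero, one_mul, mul_one, Real.norm_eq_abs]
      rw [hS.zero]
      have b1 := abs_U_le ha hb A x
      have b2 := abs_U_le ha hb A y
      have b3 := abs_sub (U a b A x) (U a b A y)
      have b4 : 0 ≤ q * E := by positivity
      linarith)
    hB'
    (by
      intro s hs
      rw [Real.norm_eq_abs, abs_mul, abs_of_pos (Real.exp_pos _)]
      have g1 : |∑ i ∈ A, (S s (V a b d0 d1 d2 d3 A i) x - S s (V a b d0 d1 d2 d3 A i) y)|
          ≤ n * (q * (2 * Real.exp (-(1 - q) * s) + E)) := by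
        refine (Finset.abs_sum_le_sum_abs _ _).trans ?_
        rw [hndef, ← nsmul_eq_mul]
        refine Finset.sum_le_card_nsmul _ _ _ fun i _ => ?_
        have hBn : 0 ≤ 2 * Real.exp (-(1 - q) * s) + E := by positivity
        refine ((osc_V hS hs.1 hab hBn (h s hs.1) A i) x y).trans ?_
        exact mul_le_mul_of_nonneg_right hq hBn
      have g2 : Real.exp (n * s) * Real.exp (-(1 - q) * s) = Real.exp ((n - (1 - q)) * s) := by
        rw [← Real.exp_add]; congr 1; ring
      have g3 : n * q ≤ n - (1 - q) := by nlinarith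
      calc Real.exp (n * s)
            * |∑ i ∈ A, (S s (V a b d0 d1 d2 d3 A i) x - S s (V a b d0 d1 d2 d3 A i) y)|
          ≤ Real.exp (n * s) * (n * (q * (2 * Real.exp (-(1 - q) * s) + E))) := by gcongr
        _ = 2 * ((Real.exp (n * s) * Real.exp (-(1 - q) * s)) * (n * q))
            + q * E * (Real.exp (n * s) * n) := by ring
        _ = 2 * (Real.exp ((n - (1 - q)) * s) * (n * q)) + q * E * (Real.exp (n * s) * n) := by
            rw [g2]
        _ ≤ _ := by gcongr)
    (x := t) (Set.right_mem_Icc.2 ht)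
  rw [Real.norm_eq_abs, abs_mul, abs_of_pos (Real.exp_pos _)] at key
  have g2 : Real.exp ((n - (1 - q)) * t) = Real.exp (n * t) * Real.exp (-(1 - q) * t) := by
    rw [← Real.exp_add]; congr 1; ring
  have key2 : Real.exp (n * t) * |S t (U a b A) x - S t (U a b A) y|
      ≤ Real.exp (n * t) * (2 * Real.exp (-(1 - q) * t) + q * E) := by
    refine key.trans (le_of_eq ?_)
    simp only [g2]
    ring
  exact le_of_mul_le_mul_left key2 (Real.exp_pos _)

/-- The exponential bound for product functions. -/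
theorem osc_U (hS : IsParrondoSemigroup p S) {a b d0 d1 d2 d3 : ℝ}
    (ha : |a| ≤ 1) (hb : |b| ≤ 1)
    (hab : |-(a * b)| + |a + b| ≤ 1)
    (hd : ∀ l r : Bool, (1 - p (idx l r)) * a + p (idx l r) * b
      = d0 + d1 * uv a b l + d2 * uv a b r + d3 * (uv a b l * uv a b r))
    {q : ℝ} (hq : |d0| + |d1| + |d2| + |d3| ≤ q) (hq0 : 0 ≤ q) (hq1 : q < 1)
    {t : ℝ} (ht : 0 ≤ t) (A : Finset ℤ) :
    Osc S t (U a b A) (2 * Real.exp (-(1 - q) * t)) := by
  have h1 : ∀ k : ℕ, ∀ t, 0 ≤ t → ∀ A,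
      Osc S t (U a b A) (2 * Real.exp (-(1 - q) * t) + q ^ k * 2) := by
    intro k
    induction k with
    | zero =>
      intro t ht A x y
      have b1 := S_abs_le hS ht (abs_U_le ha hb A) x
      have b2 := S_abs_le hS ht (abs_U_le ha hb A) y
      have b3 := abs_sub (S t (U a b A) x) (S t (U a b A) y)
      have b4 := Real.exp_pos (-(1 - q) * t)
      simp only [pow_zero, one_mul]
      linarith
    | succ k ih =>
      intro t ht A
      have := osc_step hS ha hb hab hd hq hq0 hq1.le (E := q ^ k * 2) (by positivity) ih t ht A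
      rwa [← mul_assoc, ← pow_succ'] at this
  intro x y
  have h2 : Tendsto (fun k : ℕ => 2 * Real.exp (-(1 - q) * t) + q ^ k * 2) atTop
      (𝓝 (2 * Real.exp (-(1 - q) * t) + 0 * 2)) :=
    ((tendsto_pow_atTop_nhds_zero_of_lt_one hq0 hq1).mul_const 2).const_add _
  have h3 := ge_of_tendsto' h2 (fun k => h1 k t ht A x y)
  simpa using h3

end Bound

end Pool.Agent.PSD
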