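import Pool.Agent.PSD.Dual

/-!
# From decay of the oscillation of product functions to ergodicity
-/

open Filter Topology MeasureTheory CompactlySupported

namespace Pool.Agent.PSD

variable {p : Fin 4 → ℝ} {S : ℝ → C(Config, ℝ) → C(Config, ℝ)}

/-- The oscillation of `S t f` tends to zero. -/
def Decays (S : ℝ → C(Config, ℝ) → C(Config, ℝ)) (f : C(Config, ℝ)) : Prop :=
  ∀ ε : ℝ, 0 < ε → ∃ T : ℝ, 0 ≤ T ∧ ∀ t, T ≤ t → Osc S t f ε

theorem Decays.add (hS : IsParrondoSemigroup p S) {f g : C(Config, ℝ)} (hf : Decays S f)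
    (hg : Decays S g) : Decays S (f + g) := by
  intro ε hε
  obtain ⟨T, hT, h1⟩ := hf (ε / 2) (by positivity)
  obtain ⟨T', hT', h2⟩ := hg (ε / 2) (by positivity)
  refine ⟨max T T', le_max_of_le_left hT, fun t ht => ?_⟩
  have ht0 : 0 ≤ t := le_trans (le_max_of_le_left hT) ht
  have := (h1 t (le_trans (le_max_left _ _) ht)).comb hS ht0
    (h2 t (le_trans (le_max_right _ _) ht)) 1 1
  simp only [one_smul, abs_one, one_mul, add_halves] at this
  exact this

theorem Decays.smul (hS : IsParrondoSemigroup p S) {f : C(Config, ℝ)} (hf : Decays S f) (a : ℝ) :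
    Decays S (a • f) := by
  intro ε hε
  obtain ⟨T, hT, h1⟩ := hf (ε / (|a| + 1)) (by positivity)
  refine ⟨T, hT, fun t ht x y => ?_⟩
  have ht0 : 0 ≤ t := le_trans hT ht
  rw [S_smul hS ht0, ContinuousMap.smul_apply, ContinuousMap.smul_apply, smul_eq_mul, smul_eq_mul,
    ← mul_sub, abs_mul]
  calc |a| * |S t f x - S t f y| ≤ (|a| + 1) * (ε / (|a| + 1)) := by
        gcongr
        · linarith
        · exact h1 t ht x y
    _ = ε := by field_simp

theorem Decays.zero (hS : IsParrondoSemigroup p S) : Decays S 0 := by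
  intro ε hε
  refine ⟨0, le_rfl, fun t ht x y => ?_⟩
  rw [S_zero hS ht]
  simpa using hε.le

theorem Decays.closure (hS : IsParrondoSemigroup p S) {f : C(Config, ℝ)}
    (h : ∀ ε : ℝ, 0 < ε → ∃ g, Decays S g ∧ ‖f - g‖ ≤ ε) : Decays S f := by
  intro ε hε
  obtain ⟨g, hg, hfg⟩ := h (ε / 3) (by positivity)
  obtain ⟨T, hT, h1⟩ := hg (ε / 3) (by positivity)
  refine ⟨T, hT, fun t ht x y => ?_⟩
  have ht0 : 0 ≤ t := le_trans hT ht
  have h2 : ∀ z, |S t f z - S t g z| ≤ ε / 3 := by
    intro z
    have h3 := S_norm_le hS ht0 (f - g)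
    have h4 := ContinuousMap.norm_coe_le_norm (S t (f - g)) z
    rw [S_sub hS ht0, ContinuousMap.sub_apply, Real.norm_eq_abs] at h4
    rw [S_sub hS ht0] at h3
    linarith
  have h5 := h1 t ht x y
  have h6 := h2 x
  have h7 := h2 y
  rw [abs_le] at h5 h6 h7 ⊢
  constructor <;> linarith

/-! ### Density of the span of the product functions -/

theorem U_mul_mem {a b : ℝ} (j : ℤ) {f : C(Config, ℝ)}
    (hf : f ∈ Submodule.span ℝ (Set.range (U a b))) :
    uc a b j * f ∈ Submodule.span ℝ (Set.range (U a b)) := by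
  induction hf using Submodule.span_induction with
  | mem f hf =>
    obtain ⟨A, rfl⟩ := hf
    by_cases hj : j ∈ A
    · rw [uc_mul_U a b hj]
      exact Submodule.add_mem _ (Submodule.smul_mem _ _ (Submodule.subset_span ⟨_, rfl⟩))
        (Submodule.smul_mem _ _ (Submodule.subset_span ⟨_, rfl⟩))
    · rw [← U_insert a b hj]
      exact Submodule.subset_span ⟨_, rfl⟩
  | zero => rw [mul_zero]; exact Submodule.zero_mem _
  | add f g _ _ h1 h2 => rw [mul_add]; exact Submodule.add_mem _ h1 h2
  | smul c f _ h => rw [mul_smul_comm]; exact Submodule.smul_mem _ _ h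

theorem UA_mul_mem {a b : ℝ} (A : Finset ℤ) {f : C(Config, ℝ)}
    (hf : f ∈ Submodule.span ℝ (Set.range (U a b))) :
    U a b A * f ∈ Submodule.span ℝ (Set.range (U a b)) := by
  induction A using Finset.induction_on with
  | empty => rwa [U_empty, one_mul]
  | insert i A hi ih =>
    rw [U_insert a b hi, mul_assoc]
    exact U_mul_mem i ih

theorem mul_mem_span {a b : ℝ} {f g : C(Config, ℝ)}
    (hf : f ∈ Submodule.span ℝ (Set.range (U a b)))
    (hg : g ∈ Submodule.span ℝ (Set.range (U a b))) :
    f * g ∈ Submodule.span ℝ (Set.range (U a b)) := by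
  induction hf using Submodule.span_induction with
  | mem f hf => obtain ⟨A, rfl⟩ := hf; exact UA_mul_mem A hg
  | zero => rw [zero_mul]; exact Submodule.zero_mem _
  | add f g _ _ h1 h2 => rw [add_mul]; exact Submodule.add_mem _ h1 h2
  | smul c f _ h => rw [smul_mul_assoc]; exact Submodule.smul_mem _ _ h

/-- The span of the product functions, as a subalgebra. -/
noncomputable def prodAlg (a b : ℝ) : Subalgebra ℝ C(Config, ℝ) where
  carrier := Submodule.span ℝ (Set.range (U a b))
  mul_mem' := mul_mem_span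
  add_mem' := Submodule.add_mem _
  algebraMap_mem' r := by
    have h1 : algebraMap ℝ C(Config, ℝ) r = r • U a b ∅ := by
      rw [U_empty, Algebra.algebraMap_eq_smul_one]
    rw [h1]
    exact Submodule.smul_mem _ _ (Submodule.subset_span ⟨_, rfl⟩)

theorem prodAlg_dense {a b : ℝ} (hab : a ≠ b) : (prodAlg a b).topologicalClosure = ⊤ := by
  apply ContinuousMap.subalgebra_topologicalClosure_eq_top_of_separatesPoints
  intro x y hxy
  obtain ⟨i, hi⟩ : ∃ i, x i ≠ y i := by
    by_contra h
    push Not at h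
    exact hxy (funext h)
  refine ⟨uc a b i, ⟨uc a b i, ?_, rfl⟩, ?_⟩
  · have h1 : uc a b i = U a b {i} := by simp [U]
    rw [h1]
    exact Submodule.subset_span ⟨_, rfl⟩
  · simp only [uc_apply, uv]
    cases hx : x i <;> cases hy : y i
    · exact absurd (hx.trans hy.symm) hi
    · simpa using hab
    · simpa using hab.symm
    · exact absurd (hx.trans hy.symm) hi

theorem decays_all (hS : IsParrondoSemigroup p S) {a b : ℝ} (hab : a ≠ b)
    (h : ∀ A, Decays S (U a b A)) (f : C(Config, ℝ)) : Decays S f := by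
  have h1 : ∀ g ∈ Submodule.span ℝ (Set.range (U a b)), Decays S g := by
    intro g hg
    induction hg using Submodule.span_induction with
    | mem g hg => obtain ⟨A, rfl⟩ := hg; exact h A
    | zero => exact Decays.zero hS
    | add f g _ _ h1 h2 => exact h1.add hS h2
    | smul c f _ h => exact h.smul hS c
  have h2 : f ∈ (prodAlg a b).topologicalClosure := by
    rw [prodAlg_dense hab]; exact Algebra.mem_top
  refine Decays.closure hS fun ε hε => ?_
  have h3 : f ∈ closure ((prodAlg a b : Set C(Config, ℝ))) := h2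
  rw [Metric.mem_closure_iff] at h3
  obtain ⟨g, hg, hd⟩ := h3 ε hε
  refine ⟨g, h1 g hg, ?_⟩
  rw [dist_eq_norm] at hd
  exact hd.le

/-! ### The limit functional and ergodicity -/

theorem exists_limit (hS : IsParrondoSemigroup p S) {f : C(Config, ℝ)} (hf : Decays S f) :
    ∃ l : ℝ, ∀ ε : ℝ, 0 < ε → ∃ T : ℝ, 0 ≤ T ∧ ∀ t, T ≤ t → ∀ x, |S t f x - l| ≤ ε := by
  -- a point
  set o : Config := fun _ => false
  have key : ∀ s t : ℝ, 0 ≤ s → s ≤ t → ∀ ε, Osc S s f ε → ∀ x, |S t f x - S s f o| ≤ ε := by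
    intro s t hs hst ε hosc x
    have e1 : S t f = S (t - s) (S s f) := by
      rw [← hS.add (t - s) s (by linarith) hs]; congr 1; ring
    have e2 : S t f x - S s f o = S (t - s) (S s f - (S s f o) • (1 : C(Config, ℝ))) x := by
      rw [S_sub hS (by linarith : 0 ≤ t - s), ContinuousMap.sub_apply,
        S_const hS (by linarith : 0 ≤ t - s), e1]
    rw [e2]
    refine S_abs_le hS (by linarith) (fun z => ?_) x
    simpa using hosc z o
  have hc : CauchySeq (fun t : ℝ => S (max t 0) f o) := by
    rw [Metric.cauchySeq_iff']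
    intro ε hε
    obtain ⟨T, hT, h1⟩ := hf (ε / 2) (by positivity)
    refine ⟨T, fun t ht => ?_⟩
    rw [Real.dist_eq, max_eq_left (hT.trans ht), max_eq_left hT]
    have := key T t hT ht (ε / 2) (h1 T le_rfl) o
    linarith
  obtain ⟨l, hl⟩ := cauchySeq_tendsto_of_complete hc
  refine ⟨l, fun ε hε => ?_⟩
  obtain ⟨T, hT, h1⟩ := hf (ε / 2) (by positivity)
  rw [Metric.tendsto_atTop] at hl
  obtain ⟨T', hT'⟩ := hl (ε / 2) (by positivity)
  refine ⟨max T T', le_max_of_le_left hT, fun t ht x => ?_⟩
  have ht1 : T ≤ t := le_trans (le_max_left _ _) ht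
  have ht2 : T' ≤ t := le_trans (le_max_right _ _) ht
  have a1 := hT' t ht2
  rw [Real.dist_eq, max_eq_left (hT.trans ht1)] at a1
  have a2 := h1 t ht1 x o
  rw [abs_le] at a2 ⊢
  rw [abs_lt] at a1
  constructor <;> linarith

/-- If the oscillation of `S t f` tends to zero for every `f`, then `S` is ergodic. -/
theorem ergodic_of_decays (hS : IsParrondoSemigroup p S) (h : ∀ f, Decays S f) :
    IsErgodic S := by
  choose l hl using fun f => exists_limit hS (h f)
  -- uniqueness of the limit
  have huniq : ∀ f (m : ℝ), (∀ ε : ℝ, 0 < ε → ∃ T : ℝ, 0 ≤ T ∧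
      ∀ t, T ≤ t → ∀ x, |S t f x - m| ≤ ε) → l f = m := by
    intro f m hm
    by_contra hne
    have hpos : 0 < |l f - m| := abs_pos.2 (sub_ne_zero.2 hne)
    obtain ⟨T, hT, h1⟩ := hl f (|l f - m| / 3) (by positivity)
    obtain ⟨T', hT', h2⟩ := hm (|l f - m| / 3) (by positivity)
    have a1 := h1 (max T T') (le_max_left _ _) (fun _ => false)
    have a2 := h2 (max T T') (le_max_right _ _) (fun _ => false)
    have a3 := abs_sub_le (l f) (S (max T T') f (fun _ => false)) m
    rw [abs_sub_comm (l f) (S (max T T') f (fun _ => false))] at a3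
    linarith
  have hcomb : ∀ (a b : ℝ) f g, l (a • f + b • g) = a * l f + b * l g := by
    intro a b f g
    refine huniq _ _ fun ε hε => ?_
    obtain ⟨T, hT, h1⟩ := hl f (ε / 2 / (|a| + 1)) (by positivity)
    obtain ⟨T', hT', h2⟩ := hl g (ε / 2 / (|b| + 1)) (by positivity)
    refine ⟨max T T', le_max_of_le_left hT, fun t ht x => ?_⟩
    have ht0 : 0 ≤ t := le_trans (le_max_of_le_left hT) ht
    rw [hS.lin t ht0]
    simp only [ContinuousMap.add_apply, ContinuousMap.smul_apply, smul_eq_mul]
    have a1 := h1 t (le_trans (le_max_left _ _) ht) x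
    have a2 := h2 t (le_trans (le_max_right _ _) ht) x
    have e1 : a * S t f x + b * S t g x - (a * l f + b * l g)
        = a * (S t f x - l f) + b * (S t g x - l g) := by ring
    rw [e1]
    refine (abs_add_le _ _).trans ?_
    rw [abs_mul, abs_mul]
    have b1 : |a| * |S t f x - l f| ≤ (|a| + 1) * (ε / 2 / (|a| + 1)) := by
      gcongr; linarith
    have b2 : |b| * |S t g x - l g| ≤ (|b| + 1) * (ε / 2 / (|b| + 1)) := by
      gcongr; linarith
    have b3 : (|a| + 1) * (ε / 2 / (|a| + 1)) = ε / 2 := by field_simp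
    have b4 : (|b| + 1) * (ε / 2 / (|b| + 1)) = ε / 2 := by field_simp
    linarith
  have hone : l 1 = 1 := by
    refine huniq _ _ fun ε hε => ⟨0, le_rfl, fun t ht x => ?_⟩
    rw [hS.one t ht]
    simpa using hε.le
  have hnonneg : ∀ f : C(Config, ℝ), (∀ x, 0 ≤ f x) → 0 ≤ l f := by
    intro f hf
    by_contra hlt
    push Not at hlt
    obtain ⟨T, hT, h1⟩ := hl f (-(l f) / 2) (by linarith)
    have a1 := h1 T le_rfl (fun _ => false)
    have a2 := hS.nonneg T hT f hf (fun _ => false)
    rw [abs_le] at a1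
    linarith [a1.2]
  -- the positive functional
  let L0 : C_c(Config, ℝ) →ₗ[ℝ] ℝ :=
    { toFun := fun f => l (f : C(Config, ℝ))
      map_add' := fun f g => by
        have := hcomb 1 1 (f : C(Config, ℝ)) (g : C(Config, ℝ))
        rw [one_smul, one_smul, one_mul, one_mul] at this
        exact this
      map_smul' := fun a f => by
        have := hcomb a 0 (f : C(Config, ℝ)) 0
        rw [zero_smul, add_zero, zero_mul, add_zero] at this
        exact this }
  let L : C_c(Config, ℝ) →ₚ[ℝ] ℝ := PositiveLinearMap.mk₀ L0 (fun f hf => hnonneg _ (fun x => hf x))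
  have hrep : ∀ f : C(Config, ℝ), ∫ x, f x ∂(RealRMK.rieszMeasure L) = l f := by
    intro f
    have := RealRMK.integral_rieszMeasure L (CompactlySupportedContinuousMap.continuousMapEquiv f)
    exact this
  have hprob : IsProbabilityMeasure (RealRMK.rieszMeasure L) := by
    have h1 := hrep 1
    rw [hone] at h1
    simp only [ContinuousMap.one_apply, integral_const, smul_eq_mul, mul_one] at h1
    refine ⟨?_⟩
    rw [Measure.real, ENNReal.toReal_eq_one_iff] at h1
    exact h1
  have hint : ∀ (μ : ProbabilityMeasure Config) (f : C(Config, ℝ)),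
      Integrable (fun x => f x) (μ : Measure Config) := by
    intro μ f
    exact f.continuous.integrable_of_hasCompactSupport (HasCompactSupport.of_compactSpace _)
  -- convergence of integrals
  have hconv : ∀ (μ : ProbabilityMeasure Config) (f : C(Config, ℝ)),
      Tendsto (fun t : ℝ => ∫ x, S t f x ∂(μ : Measure Config)) atTop (𝓝 (l f)) := by
    intro μ f
    rw [Metric.tendsto_atTop]
    intro ε hε
    obtain ⟨T, hT, h1⟩ := hl f (ε / 2) (by positivity)
    refine ⟨T, fun t ht => ?_⟩
    rw [Real.dist_eq]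
    have e1 : ∫ x, S t f x ∂(μ : Measure Config) - l f
        = ∫ x, (S t f x - l f) ∂(μ : Measure Config) := by
      rw [integral_sub (hint μ _) (integrable_const _)]
      simp
    rw [e1]
    have e2 : ‖∫ x, (S t f x - l f) ∂(μ : Measure Config)‖
        ≤ (ε / 2) * (μ : Measure Config).real Set.univ :=
      norm_integral_le_of_norm_le_const (ae_of_all _ fun x => by
        rw [Real.norm_eq_abs]; exact h1 t ht x)
    rw [Real.norm_eq_abs] at e2
    simp only [probReal_univ, mul_one] at e2
    linarith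
  refine ⟨⟨RealRMK.rieszMeasure L, hprob⟩, ?_, ?_, ?_⟩
  · intro t ht f
    change ∫ x, S t f x ∂(RealRMK.rieszMeasure L) = ∫ x, f x ∂(RealRMK.rieszMeasure L)
    rw [hrep, hrep]
    refine huniq _ _ fun ε hε => ?_
    obtain ⟨T, hT, h1⟩ := hl f ε hε
    refine ⟨T, hT, fun s hs x => ?_⟩
    rw [← hS.add s t (hT.trans hs) ht]
    exact h1 _ (by linarith) x
  · intro ν' hν'
    apply Subtype.ext
    change (ν' : Measure Config) = RealRMK.rieszMeasure L
    apply ext_of_forall_integral_eq_of_IsFiniteMeasure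
    intro f
    have h1 : ∫ x, (f : Config → ℝ) x ∂(RealRMK.rieszMeasure L) = l f.toContinuousMap :=
      hrep f.toContinuousMap
    rw [h1]
    have h2 := hconv ν' f.toContinuousMap
    have h3 : Tendsto (fun t : ℝ => ∫ x, S t f.toContinuousMap x ∂(ν' : Measure Config)) atTop
        (𝓝 (∫ x, (f : Config → ℝ) x ∂(ν' : Measure Config))) := by
      refine tendsto_const_nhds.congr' ?_
      filter_upwards [eventually_ge_atTop (0 : ℝ)] with t ht
      exact (hν' t ht f.toContinuousMap).symm
    exact tendsto_nhds_unique h3 h2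
  · intro μ f
    have h1 := hconv μ f
    rw [← hrep f] at h1
    exact h1

/-- The duality criterion. -/
theorem ergodic_of_dual (hS : IsParrondoSemigroup p S) {a b d0 d1 d2 d3 : ℝ}
    (hne : a ≠ b) (ha : |a| ≤ 1) (hb : |b| ≤ 1)
    (hab : |-(a * b)| + |a + b| ≤ 1)
    (hd : ∀ l r : Bool, (1 - p (idx l r)) * a + p (idx l r) * b
      = d0 + d1 * uv a b l + d2 * uv a b r + d3 * (uv a b l * uv a b r))
    (hq : |d0| + |d1| + |d2| + |d3| < 1) : IsErgodic S := by
  refine ergodic_of_decays hS (decays_all hS hne fun A => ?_)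
  intro ε hε
  set q : ℝ := |d0| + |d1| + |d2| + |d3| with hqdef
  have hq0 : 0 ≤ q := by positivity
  have h1 : Tendsto (fun t : ℝ => 2 * Real.exp (-(1 - q) * t)) atTop (𝓝 (2 * 0)) := by
    refine Tendsto.const_mul 2 (Real.tendsto_exp_atBot.comp ?_)
    exact tendsto_id.const_mul_atTop_of_neg (by linarith)
  rw [mul_zero, Metric.tendsto_atTop] at h1
  obtain ⟨T, hT⟩ := h1 ε hε
  refine ⟨max T 0, le_max_right _ _, fun t ht => ?_⟩
  have ht0 : 0 ≤ t := le_trans (le_max_right _ _) ht
  refine (osc_U hS ha hb hab hd le_rfl hq0 hq ht0 A).mono ?_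
  have := hT t (le_trans (le_max_left _ _) ht)
  rw [Real.dist_eq, sub_zero, abs_of_pos (by positivity)] at this
  exact this.le

end Pool.Agent.PSD
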